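import Pool.Agent.Q255.L2.StmM
import Pool.Agent.Q13.EP.REC

/-! # Project L2M (helper255), job GMA: moments of the twists from the two counts -/

set_option autoImplicit false

namespace Pool.Agent.Q13.L2M

open Filter Topology MeasureTheory Finset
open Pool.Agent.Q255.IC Pool.Agent.Q255.IR Pool.Agent.Q255.EP Pool.Agent.Q255.L2

/-! ## The norm of sums over fibres -/

section gen
variable {α : Type} [DecidableEq α]

open Classical in
/-- is `n = r² s`? -/
noncomputable def Is (s n : ℕ) : ℝ := if ∃ r, 1 ≤ r ∧ n = r ^ 2 * s then 1 else 0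

theorem Is_nonneg (s n : ℕ) : 0 ≤ Is s n := by
  unfold Is
  split_ifs <;> norm_num

theorem row (S : Finset α) (P : α → ℕ) (F : α → ℝ) (hF : ∀ a ∈ S, 0 ≤ F a) (w : ℕ → ℝ)
    (hw : ∀ n, |w n| ≤ ∑ a ∈ S, if P a = n then F a else 0) (X s : ℕ) (hs : Squarefree s) :
    ∑ r ∈ Icc 1 X, |w (r ^ 2 * s)| ≤ ∑ a ∈ S, Is s (P a) * F a := by
  classical
  refine (sum_le_sum fun r _ => hw (r ^ 2 * s)).trans ?_
  rw [sum_comm]
  refine sum_le_sum fun p hpS => ?_
  by_cases hp : ∃ r ∈ Icc 1 X, P p = r ^ 2 * s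
  · obtain ⟨r, hr, hpr⟩ := hp
    rw [sum_eq_single_of_mem r hr]
    · rw [if_pos hpr]
      unfold Is
      rw [if_pos ⟨r, (mem_Icc.1 hr).1, hpr⟩, one_mul]
    · intro r' hr' hne
      rw [if_neg]
      intro hpr'
      apply hne
      have := Pool.Agent.Q13.EP.sq_part_inj (r := r') (r' := r) (s := s) (s' := s)
        (by have := mem_Icc.1 hr'; omega) (by have := mem_Icc.1 hr; omega) hs hs (hpr'.symm.trans hpr)
      exact this.1
  · rw [sum_eq_zero]
    · exact mul_nonneg (Is_nonneg s _) (hF p hpS)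
    · intro r hr
      rw [if_neg]
      intro hpr
      exact hp ⟨r, hr, hpr⟩

theorem cols (X a b : ℕ) :
    ∑ s ∈ (Icc 1 X).filter Squarefree, Is s a * Is s b ≤ if IsSquare (a * b) then (1 : ℝ) else 0 := by
  classical
  by_cases hp : ∃ s ∈ (Icc 1 X).filter Squarefree, (∃ r, 1 ≤ r ∧ a = r ^ 2 * s) ∧
      ∃ r, 1 ≤ r ∧ b = r ^ 2 * s
  · obtain ⟨s, hs, ⟨r, hr, h1⟩, r', hr', h2⟩ := hp
    rw [sum_eq_single_of_mem s hs]
    · rw [if_pos]
      · unfold Is
        rw [if_pos ⟨r, hr, h1⟩, if_pos ⟨r', hr', h2⟩]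
        norm_num
      · rw [h1, h2]
        exact ⟨r * r' * s, by ring⟩
    · intro s' hs' hne
      have : Is s' a = 0 := by
        unfold Is
        rw [if_neg]
        rintro ⟨r1, hr1, h3⟩
        apply hne
        exact (Pool.Agent.Q13.EP.sq_part_inj (by omega) (by omega) (mem_filter.1 hs').2
          (mem_filter.1 hs).2 (h3.symm.trans h1)).2
      rw [this, zero_mul]
  · rw [sum_eq_zero]
    · split_ifs <;> norm_num
    · intro s hs
      unfold Is
      by_cases h1 : ∃ r, 1 ≤ r ∧ a = r ^ 2 * s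
      · by_cases h2 : ∃ r, 1 ≤ r ∧ b = r ^ 2 * s
        · exact absurd ⟨s, hs, h1, h2⟩ hp
        · rw [if_neg h2, mul_zero]
      · rw [if_neg h1, zero_mul]

theorem nn_gen (S : Finset α) (P : α → ℕ) (F : α → ℝ) (hF : ∀ a ∈ S, 0 ≤ F a) (w : ℕ → ℝ)
    (hw : ∀ n, |w n| ≤ ∑ a ∈ S, if P a = n then F a else 0) (X : ℕ) :
    nn X w ≤ ∑ p ∈ (S ×ˢ S).filter (fun p => IsSquare (P p.1 * P p.2)), F p.1 * F p.2 := by
  classical
  unfold nn
  calc ∑ s ∈ (Icc 1 X).filter Squarefree, (∑ r ∈ Icc 1 X, |w (r ^ 2 * s)|) ^ 2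
      ≤ ∑ s ∈ (Icc 1 X).filter Squarefree, (∑ a ∈ S, Is s (P a) * F a) ^ 2 := by
        refine sum_le_sum fun s hs => ?_
        exact pow_le_pow_left₀ (sum_nonneg fun _ _ => abs_nonneg _)
          (row S P F hF w hw X s (mem_filter.1 hs).2) 2
    _ = ∑ a ∈ S, ∑ b ∈ S, (F a * F b) * ∑ s ∈ (Icc 1 X).filter Squarefree, Is s (P a) * Is s (P b) := by
        have e1 : ∀ s : ℕ, (∑ a ∈ S, Is s (P a) * F a) ^ 2 =
            ∑ a ∈ S, ∑ b ∈ S, (F a * F b) * (Is s (P a) * Is s (P b)) := by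
          intro s
          rw [sq, sum_mul_sum]
          refine sum_congr rfl fun a _ => sum_congr rfl fun b _ => by ring
        simp only [e1]
        rw [sum_comm]
        refine sum_congr rfl fun a _ => ?_
        rw [sum_comm]
        refine sum_congr rfl fun b _ => ?_
        rw [mul_sum]
    _ ≤ ∑ a ∈ S, ∑ b ∈ S, (F a * F b) * (if IsSquare (P a * P b) then (1 : ℝ) else 0) := by
        refine sum_le_sum fun a ha => sum_le_sum fun b hb => ?_
        exact mul_le_mul_of_nonneg_left (cols X _ _) (mul_nonneg (hF a ha) (hF b hb))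
    _ = _ := by
        rw [sum_filter, sum_product]
        refine sum_congr rfl fun a _ => sum_congr rfl fun b _ => ?_
        simp only
        split_ifs <;> ring

end gen

/-! ## Balanced tuples -/

section bal
variable {k : ℕ}

open Classical in
theorem card_pos (m : Fin k → ℤ) (X : ℕ) (hm : ∀ i, m i ∈ Bx X) (f : ℤ → ℕ) :
    ∏ i ∈ univ.filter (fun i => 0 < m i), f (m i) =
      ∏ v ∈ Icc (1 : ℤ) X, f v ^ (univ.filter fun i => m i = v).card := by
  rw [← prod_fiberwise_of_maps_to (s := univ.filter fun i => 0 < m i) (t := Icc (1 : ℤ) X)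
    (g := fun i => m i)]
  · refine prod_congr rfl fun v hv => ?_
    rw [filter_filter]
    have : (univ.filter fun i => 0 < m i ∧ m i = v) = univ.filter fun i => m i = v := by
      refine filter_congr fun i _ => ?_
      have := mem_Icc.1 hv
      constructor
      · exact fun h => h.2
      · intro h
        exact ⟨by omega, h⟩
    rw [this, prod_congr rfl (g := fun _ => f v), prod_const]
    intro i hi
    rw [(mem_filter.1 hi).2]
  · intro i hi
    have h1 := (mem_filter.1 hi).2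
    have h2 := mem_erase.1 (hm i)
    have h3 := mem_Icc.1 h2.2
    exact mem_Icc.2 ⟨by omega, h3.2⟩

theorem natAbs_pos_of (m : Fin k → ℤ) (X : ℕ) (hm : ∀ i, m i ∈ Bx X) (i : Fin k) :
    1 ≤ (m i).natAbs ∧ (m i).natAbs ≤ X := by
  have h2 := mem_erase.1 (hm i)
  have h3 := mem_Icc.1 h2.2
  constructor
  · have := Int.natAbs_pos.2 h2.1
    omega
  · omega

open Classical in
theorem bal_square (m : Fin k → ℤ) (X : ℕ) (hm : ∀ i, m i ∈ Bx X) (hb : BalZ m) :
    IsSquare (∏ i, (m i).natAbs) := by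
  have h1 : ∏ i, (m i).natAbs = (∏ i ∈ univ.filter (fun i => 0 < m i), (m i).natAbs) *
      ∏ i ∈ univ.filter (fun i => ¬ 0 < m i), (m i).natAbs := (prod_filter_mul_prod_filter_not _ _ _).symm
  have hneg : ∀ i, - m i ∈ Bx X := by
    intro i
    have h2 := mem_erase.1 (hm i)
    have h3 := mem_Icc.1 h2.2
    refine mem_erase.2 ⟨neg_ne_zero.2 h2.1, mem_Icc.2 ⟨by omega, by omega⟩⟩
  have h2 := card_pos m X hm Int.natAbs
  have h3 := card_pos (fun i => - m i) X hneg Int.natAbs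
  have h4 : ∏ i ∈ univ.filter (fun i => ¬ 0 < m i), (m i).natAbs =
      ∏ i ∈ univ.filter (fun i => 0 < - m i), (- m i).natAbs := by
    have : (univ.filter fun i => ¬ 0 < m i) = univ.filter fun i => 0 < - m i := by
      refine filter_congr fun i _ => ?_
      have h2 := (mem_erase.1 (hm i)).1
      omega
    rw [this]
    exact prod_congr rfl fun i _ => (Int.natAbs_neg _).symm
  rw [h1, h4, h2, h3]
  have h5 : ∏ v ∈ Icc (1 : ℤ) X, v.natAbs ^ (univ.filter fun i => - m i = v).card =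
      ∏ v ∈ Icc (1 : ℤ) X, v.natAbs ^ (univ.filter fun i => m i = v).card := by
    refine prod_congr rfl fun v _ => ?_
    congr 1
    rw [hb v]
    congr 1
    refine filter_congr fun i _ => ?_
    constructor <;> intro h <;> linarith
  rw [h5]
  exact ⟨_, rfl⟩

open Classical in
theorem bal_sum (m : Fin k → ℤ) (hb : BalZ m) : ∑ i, m i = 0 := by
  have e1 : ∀ S : Finset ℤ, (∀ i, m i ∈ S) → ∑ i, m i = ∑ v ∈ S, ((univ.filter fun i => m i = v).card : ℤ) * v := by
    intro S hS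
    rw [← sum_fiberwise_of_maps_to (s := univ) (t := S) (g := m) (fun i _ => hS i)]
    refine sum_congr rfl fun v _ => ?_
    rw [sum_congr rfl (g := fun _ => v), sum_const, nsmul_eq_mul]
    intro i hi
    rw [(mem_filter.1 hi).2]
  set S : Finset ℤ := univ.image m ∪ univ.image (fun i => - m i) with hS
  have hS1 : ∀ i, m i ∈ S := fun i => mem_union_left _ (mem_image_of_mem _ (mem_univ i))
  have hSneg : ∀ v ∈ S, -v ∈ S := by
    intro v hv
    rcases mem_union.1 hv with h | h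
    · obtain ⟨i, _, rfl⟩ := mem_image.1 h
      exact mem_union_right _ (mem_image_of_mem _ (mem_univ i))
    · obtain ⟨i, _, rfl⟩ := mem_image.1 h
      rw [neg_neg]
      exact mem_union_left _ (mem_image_of_mem _ (mem_univ i))
  have h1 := e1 S hS1
  have h2 : ∑ v ∈ S, ((univ.filter fun i => m i = v).card : ℤ) * v =
      ∑ v ∈ S, ((univ.filter fun i => m i = -v).card : ℤ) * (-v) := by
    refine sum_nbij' (fun v => -v) (fun v => -v) hSneg hSneg (fun v _ => neg_neg v) (fun v _ => neg_neg v) ?_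
    intro v _
    simp only [neg_neg]
  have h3 : ∑ v ∈ S, ((univ.filter fun i => m i = -v).card : ℤ) * (-v) =
      - ∑ v ∈ S, ((univ.filter fun i => m i = v).card : ℤ) * v := by
    rw [← sum_neg_distrib]
    refine sum_congr rfl fun v _ => ?_
    rw [hb v]
    ring
  rw [h3] at h2
  omega

end bal

/-! ## The coefficients -/

section co
variable {k : ℕ}

/-- the tuples of sum `h` -/
noncomputable def SS (k X : ℕ) (h : ℤ) : Finset (Fin k → ℤ) :=
  (Fintype.piFinset fun _ : Fin k => Bx X).filter (fun m => ∑ j, m j = h)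

/-- the product of the absolute values -/
def PP (m : Fin k → ℤ) : ℕ := ∏ j, (m j).natAbs

/-- the tuples of sum `h` whose product is not a square -/
noncomputable def SN (k X : ℕ) (h : ℤ) : Finset (Fin k → ℤ) :=
  (SS k X h).filter (fun m => ¬ IsSquare (PP m))

/-- the coefficients -/
noncomputable def coF (X : ℕ) (h : ℤ) (β : Fin k → ℤ → ℂ) (n : ℕ) : ℂ :=
  ∑ m ∈ SN k X h, if PP m = n then ∏ j, β j (m j) else 0

theorem PP_le {X : ℕ} {h : ℤ} {m : Fin k → ℤ} (hm : m ∈ SS k X h) : 1 ≤ PP m ∧ PP m ≤ X ^ k := by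
  have h1 : ∀ i, m i ∈ Bx X := Fintype.mem_piFinset.1 (mem_filter.1 hm).1
  constructor
  · exact Nat.one_le_iff_ne_zero.2 (prod_ne_zero_iff.2 fun i _ => by
      have := (natAbs_pos_of m X h1 i).1
      omega)
  · calc PP m ≤ ∏ _j : Fin k, X := prod_le_prod' fun i _ => (natAbs_pos_of m X h1 i).2
      _ = X ^ k := by simp

theorem coF_zero {X : ℕ} {h : ℤ} {β : Fin k → ℤ → ℂ} {n : ℕ} (hn : X ^ k < n) : coF X h β n = 0 := by
  unfold coF
  refine sum_eq_zero fun m hm => if_neg ?_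
  have := (PP_le (mem_filter.1 hm).1).2
  omega

theorem coF_abs (X : ℕ) (h : ℤ) (β : Fin k → ℤ → ℂ) (n : ℕ) :
    ‖coF X h β n‖ ≤ ∑ m ∈ SN k X h, if PP m = n then ∏ j, ‖β j (m j)‖ else 0 := by
  unfold coF
  refine (norm_sum_le _ _).trans (sum_le_sum fun m _ => ?_)
  split_ifs
  · rw [norm_prod]
  · rw [norm_zero]

open Classical in
theorem nn_co (X Y : ℕ) (h : ℤ) (β : Fin k → ℤ → ℂ) (w : ℕ → ℝ) (hw : ∀ n, |w n| ≤ ‖coF X h β n‖) :
    nn Y w ≤ U2 k X h β := by
  refine (nn_gen (SN k X h) PP (fun m => ∏ j, ‖β j (m j)‖) (fun m _ => prod_nonneg fun _ _ => norm_nonneg _)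
    w (fun n => (hw n).trans (coF_abs X h β n)) Y).trans ?_
  unfold U2
  refine sum_le_sum_of_subset_of_nonneg ?_ fun m _ _ =>
    mul_nonneg (prod_nonneg fun _ _ => norm_nonneg _) (prod_nonneg fun _ _ => norm_nonneg _)
  rintro ⟨m, m'⟩ hm
  rw [mem_filter, mem_product] at hm
  obtain ⟨⟨h1, h2⟩, h3⟩ := hm
  simp only at h1 h2 h3
  unfold SN at h1 h2
  rw [mem_filter] at h1 h2
  obtain ⟨h1, h1'⟩ := h1
  obtain ⟨h2, h2'⟩ := h2
  unfold SS at h1 h2
  rw [mem_filter] at h1 h2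
  rw [mem_filter, mem_product]
  refine ⟨⟨h1.1, h2.1⟩, h1.2, h2.2, h3, ?_⟩
  rintro ⟨hb, -⟩
  exact h1' (bal_square m X (Fintype.mem_piFinset.1 h1.1) hb)

theorem cm_square (ω : ℕ → Bool) {n : ℕ} (hn : 1 ≤ n) (h : IsSquare n) : cm ω n = 1 := by
  obtain ⟨r, rfl⟩ := h
  have hr : r ≠ 0 := by
    rintro rfl
    simp at hn
  rw [Pool.Agent.Q13.EP.cm_mul ω hr hr, ← sq, Pool.Agent.Q13.EP.cm_sq]

theorem cm_prod (ω : ℕ → Bool) (s : Finset (Fin k)) (t : Fin k → ℕ) (ht : ∀ i ∈ s, 1 ≤ t i) :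
    cm ω (∏ i ∈ s, t i) = ∏ i ∈ s, cm ω (t i) := by
  induction s using Finset.induction_on with
  | empty => simpa using Pool.Agent.Q13.EP.cm_one ω
  | insert i s hi ih =>
    rw [prod_insert hi, prod_insert hi, Pool.Agent.Q13.EP.cm_mul ω ?_ ?_,
      ih fun j hj => ht j (mem_insert_of_mem hj)]
    · have := ht i (mem_insert_self i s)
      omega
    · exact prod_ne_zero_iff.2 fun j hj => by
        have := ht j (mem_insert_of_mem hj)
        omega

theorem TS_eq (ω : ℕ → Bool) (X : ℕ) (h : ℤ) (β : Fin k → ℤ → ℂ) :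
    TS (cm ω) k X h β = ∑ m ∈ SS k X h, (∏ j, β j (m j)) * (cm ω (PP m) : ℂ) := by
  unfold TS SS
  refine sum_congr rfl fun m hm => ?_
  have h1 : ∀ i, m i ∈ Bx X := Fintype.mem_piFinset.1 (mem_filter.1 hm).1
  rw [prod_mul_distrib]
  congr 1
  unfold PP
  rw [cm_prod ω univ _ fun i _ => (natAbs_pos_of m X h1 i).1]
  push_cast
  rfl

open Classical in
theorem sq_part (X : ℕ) (h : ℤ) (β : Fin k → ℤ → ℂ) :
    ‖(∑ m ∈ (SS k X h).filter (fun m => IsSquare (PP m)), ∏ j, β j (m j)) -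
      if h = 0 then DB k X β else 0‖ ≤ U1 k X h β := by
  have e1 : ∑ m ∈ ((SS k X h).filter (fun m => IsSquare (PP m))).filter (fun m => BalZ m), ∏ j, β j (m j) =
      if h = 0 then DB k X β else 0 := by
    split_ifs with h0
    · unfold DB
      refine sum_congr ?_ fun _ _ => rfl
      ext m
      unfold SS
      simp only [mem_filter]
      constructor
      · rintro ⟨⟨⟨h1, h2⟩, h3⟩, h4⟩
        exact ⟨h1, h4⟩
      · rintro ⟨h1, h2⟩
        exact ⟨⟨⟨h1, (bal_sum m h2).trans h0.symm⟩, bal_square m X (Fintype.mem_piFinset.1 h1) h2⟩, h2⟩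
    · refine sum_eq_zero fun m hm => ?_
      exfalso
      apply h0
      unfold SS at hm
      simp only [mem_filter] at hm
      rw [← hm.1.1.2, bal_sum m hm.2]
  rw [← sum_filter_add_sum_filter_not _ (fun m => BalZ m), e1, add_sub_cancel_left]
  refine (norm_sum_le _ _).trans ?_
  unfold U1
  refine le_of_eq ?_
  refine sum_congr ?_ fun m _ => norm_prod _ _
  ext m
  unfold SS PP
  simp only [mem_filter]
  tauto

theorem ns_part (ω : ℕ → Bool) (X : ℕ) (h : ℤ) (β : Fin k → ℤ → ℂ) :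
    ∑ m ∈ SN k X h, (∏ j, β j (m j)) * (cm ω (PP m) : ℂ) =
      ∑ n ∈ Icc 1 (X ^ k), coF X h β n * (cm ω n : ℂ) := by
  unfold coF
  simp only [sum_mul]
  rw [sum_comm]
  refine sum_congr rfl fun m hm => ?_
  rw [sum_eq_single_of_mem (PP m)]
  · rw [if_pos rfl]
  · exact mem_Icc.2 (PP_le (mem_filter.1 hm).1)
  · intro n _ hn
    rw [if_neg fun h => hn h.symm, zero_mul]

open Classical in
theorem TS_bound (ω : ℕ → Bool) (X : ℕ) (h : ℤ) (β : Fin k → ℤ → ℂ) :
    ‖TS (cm ω) k X h β - if h = 0 then DB k X β else 0‖ ≤ U1 k X h β +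
      (|∑ n ∈ Icc 1 (X ^ k), (coF X h β n).re * cm ω n| + |∑ n ∈ Icc 1 (X ^ k), (coF X h β n).im * cm ω n|) := by
  have e1 : TS (cm ω) k X h β = (∑ m ∈ (SS k X h).filter (fun m => IsSquare (PP m)), ∏ j, β j (m j)) +
      ∑ n ∈ Icc 1 (X ^ k), coF X h β n * (cm ω n : ℂ) := by
    rw [TS_eq, ← sum_filter_add_sum_filter_not (SS k X h) (fun m => IsSquare (PP m)), ← ns_part]
    congr 1
    refine sum_congr rfl fun m hm => ?_
    rw [mem_filter] at hm
    rw [cm_square ω (PP_le hm.1).1 hm.2]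
    simp
  have e2 : TS (cm ω) k X h β - (if h = 0 then DB k X β else 0) =
      ((∑ m ∈ (SS k X h).filter (fun m => IsSquare (PP m)), ∏ j, β j (m j)) -
        if h = 0 then DB k X β else 0) + ∑ n ∈ Icc 1 (X ^ k), coF X h β n * (cm ω n : ℂ) := by
    rw [e1]; ring
  rw [e2]
  refine (norm_add_le _ _).trans (add_le_add (sq_part X h β) ?_)
  have e3 : (∑ n ∈ Icc 1 (X ^ k), coF X h β n * (cm ω n : ℂ)).re =
      ∑ n ∈ Icc 1 (X ^ k), (coF X h β n).re * cm ω n := by
    rw [Complex.re_sum]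
    refine sum_congr rfl fun n _ => ?_
    simp
  have e4 : (∑ n ∈ Icc 1 (X ^ k), coF X h β n * (cm ω n : ℂ)).im =
      ∑ n ∈ Icc 1 (X ^ k), (coF X h β n).im * cm ω n := by
    rw [Complex.im_sum]
    refine sum_congr rfl fun n _ => ?_
    simp
  rw [← e3, ← e4]
  exact Complex.norm_le_abs_re_add_abs_im _

end co

/-! ## The sets of functions -/

open Classical in
/-- the functions of the level `J'` -/
noncomputable def WW (k : ℕ) (𝓑 : ℕ → Finset (ℤ → ℂ)) (J' : ℕ) : Finset (ℕ → ℝ) :=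
  if k ∣ J' then
    ((Fintype.piFinset fun _ : Fin k => 𝓑 (J' / k)) ×ˢ Icc (-((2 : ℤ) ^ (J' / k))) (2 ^ (J' / k))).image
      (fun p => fun n => (coF (2 ^ (J' / k)) p.2 p.1 n).re) ∪
    ((Fintype.piFinset fun _ : Fin k => 𝓑 (J' / k)) ×ˢ Icc (-((2 : ℤ) ^ (J' / k))) (2 ^ (J' / k))).image
      (fun p => fun n => (coF (2 ^ (J' / k)) p.2 p.1 n).im)
  else ∅

open Classical in
theorem WW_zero (k : ℕ) (𝓑 : ℕ → Finset (ℤ → ℂ)) (J : ℕ) : ∀ w ∈ WW k 𝓑 J, ∀ m, 2 ^ J < m → w m = 0 := by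
  intro w hw m hm
  unfold WW at hw
  split_ifs at hw with hk
  · have h1 : (2 ^ (J / k)) ^ k = 2 ^ J := by
      rw [← pow_mul, Nat.div_mul_cancel hk]
    rcases mem_union.1 hw with h | h
    · obtain ⟨p, _, rfl⟩ := mem_image.1 h
      simp only
      rw [coF_zero (by rw [h1]; exact hm)]
      simp
    · obtain ⟨p, _, rfl⟩ := mem_image.1 h
      simp only
      rw [coF_zero (by rw [h1]; exact hm)]
      simp
  · simp at hw

open Classical in
theorem WW_card (k : ℕ) (hk1 : 1 ≤ k) (𝓑 : ℕ → Finset (ℤ → ℂ)) (A : ℝ)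
    (hA : ∀ J, ((𝓑 J).card : ℝ) ≤ Real.exp (A * ((J : ℝ) + 1))) (J' : ℕ) :
    ((WW k 𝓑 J').card : ℝ) ≤ Real.exp ((k * |A| + 3) * ((J' : ℝ) + 1)) := by
  unfold WW
  split_ifs with hk
  · set J := J' / k with hJ
    have hJJ : J ≤ J' := Nat.div_le_self _ _
    have h1 : (((Fintype.piFinset fun _ : Fin k => 𝓑 J) ×ˢ Icc (-((2 : ℤ) ^ J)) (2 ^ J)).card : ℝ) ≤
        Real.exp (k * |A| * ((J' : ℝ) + 1)) * Real.exp (2 * ((J' : ℝ) + 1)) := by
      rw [card_product]
      push_cast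
      refine mul_le_mul ?_ ?_ (by positivity) (Real.exp_pos _).le
      · rw [Fintype.card_piFinset]
        simp only [prod_const, card_univ, Fintype.card_fin]
        push_cast
        calc ((𝓑 J).card : ℝ) ^ k ≤ (Real.exp (|A| * ((J' : ℝ) + 1))) ^ k := by
              refine pow_le_pow_left₀ (by positivity) ((hA J).trans (Real.exp_le_exp.2 ?_)) k
              have h2 : (J : ℝ) ≤ J' := by exact_mod_cast hJJ
              have h3 : A * ((J : ℝ) + 1) ≤ |A| * ((J : ℝ) + 1) :=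
                mul_le_mul_of_nonneg_right (le_abs_self A) (by positivity)
              have h4 : |A| * ((J : ℝ) + 1) ≤ |A| * ((J' : ℝ) + 1) :=
                mul_le_mul_of_nonneg_left (by linarith) (abs_nonneg A)
              linarith
          _ = Real.exp (k * |A| * ((J' : ℝ) + 1)) := by
              rw [← Real.exp_nat_mul]
              congr 1
              ring
      · rw [Int.card_Icc]
        have h2 : ((2 : ℤ) ^ J + 1 - -(2 : ℤ) ^ J).toNat = 2 * 2 ^ J + 1 := by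
          have : (2 : ℤ) ^ J + 1 - -(2 : ℤ) ^ J = ((2 * 2 ^ J + 1 : ℕ) : ℤ) := by push_cast; ring
          rw [this, Int.toNat_natCast]
        rw [h2]
        push_cast
        have h3 : (2 : ℝ) ≤ Real.exp 1 := by
          have := Real.add_one_le_exp (1 : ℝ)
          linarith
        have h4 : (2 : ℝ) ^ J ≤ Real.exp (J : ℝ) := by
          calc (2 : ℝ) ^ J ≤ (Real.exp 1) ^ J := pow_le_pow_left₀ (by norm_num) h3 _
            _ = Real.exp J := by rw [← Real.exp_nat_mul, mul_one]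
        have h5 : Real.exp (J : ℝ) ≤ Real.exp (J' : ℝ) := Real.exp_le_exp.2 (by exact_mod_cast hJJ)
        have h6 : (1 : ℝ) ≤ Real.exp (J' : ℝ) := Real.one_le_exp (by positivity)
        have h7 : Real.exp (2 * ((J' : ℝ) + 1)) = Real.exp (J' : ℝ) * Real.exp (J' : ℝ) * (Real.exp 1 * Real.exp 1) := by
          rw [← Real.exp_add, ← Real.exp_add, ← Real.exp_add]
          congr 1
          ring
        rw [h7]
        have h8 : (4 : ℝ) ≤ Real.exp 1 * Real.exp 1 := by nlinarith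
        have h9 : Real.exp (J' : ℝ) ≤ Real.exp (J' : ℝ) * Real.exp (J' : ℝ) := by nlinarith
        have h10 : Real.exp (J' : ℝ) * 4 ≤ Real.exp (J' : ℝ) * Real.exp (J' : ℝ) * (Real.exp 1 * Real.exp 1) :=
          mul_le_mul h9 h8 (by norm_num) (by positivity)
        linarith
    have h2 : Real.exp ((k * |A| + 3) * ((J' : ℝ) + 1)) =
        Real.exp (k * |A| * ((J' : ℝ) + 1)) * Real.exp (2 * ((J' : ℝ) + 1)) * Real.exp ((J' : ℝ) + 1) := by
      rw [← Real.exp_add, ← Real.exp_add]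
      congr 1
      ring
    have h3 : (2 : ℝ) ≤ Real.exp ((J' : ℝ) + 1) := by
      have := Real.add_one_le_exp ((J' : ℝ) + 1)
      have h4 : (0 : ℝ) ≤ J' := by positivity
      linarith
    rw [h2]
    refine le_trans (Nat.cast_le.2 (card_union_le _ _)) ?_
    push_cast
    have h5 : ∀ f : (Fin k → ℤ → ℂ) × ℤ → (ℕ → ℝ), ((((Fintype.piFinset fun _ : Fin k => 𝓑 J) ×ˢ
        Icc (-((2 : ℤ) ^ J)) (2 ^ J)).image f).card : ℝ) ≤
        Real.exp (k * |A| * ((J' : ℝ) + 1)) * Real.exp (2 * ((J' : ℝ) + 1)) :=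
      fun f => le_trans (Nat.cast_le.2 card_image_le) h1
    have h6 : (0 : ℝ) ≤ Real.exp (k * |A| * ((J' : ℝ) + 1)) * Real.exp (2 * ((J' : ℝ) + 1)) := by positivity
    refine (add_le_add (h5 _) (h5 _)).trans ?_
    nlinarith
  · simp only [card_empty, Nat.cast_zero]
    positivity

open Classical in
/-- moments of the twists from the two counts -/
theorem gma (h : S_ENG2) : S_GMA := by
  intro ν _ hν k hk 𝓑 A c C₀ hc hB0 hBc hU
  have hν' : ∀ ε : ℝ, 0 < ε → ∀ᶠ x : ℕ in atTop,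
      D ν (Nat.primeCounting x) ≤ (x : ℝ) ^ ((0 : ℝ) + ε) := by
    intro ε hε
    simpa only [zero_add] using hν ε hε
  filter_upwards [h ν 0 le_rfl zero_le_one hν' (WW k 𝓑) (k * |A| + 3) (WW_zero k 𝓑)
    (WW_card k hk 𝓑 A hBc)] with ω hω
  have hk0 : (0 : ℝ) < k := by exact_mod_cast hk
  obtain ⟨C1, hC1⟩ := hω (c / (4 * k)) (by positivity)
  refine ⟨|C₀| + 2 * (|C1| * √|C₀|), fun J β hβ l hl => ?_⟩
  obtain ⟨u1, u2⟩ := hU J β hβ l
  have hd : k * J / k = J := Nat.mul_div_cancel_left J (by omega)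
  have hmem : ∀ b : Bool, (fun n => if b then (coF (2 ^ J) l β n).re else (coF (2 ^ J) l β n).im) ∈ WW k 𝓑 (k * J) := by
    have hl' : l ∈ Icc (-((2 : ℤ) ^ J)) (2 ^ J) := mem_Icc.2 (abs_le.1 hl)
    intro b
    unfold WW
    rw [if_pos (Dvd.intro J rfl), hd]
    cases b
    · refine mem_union_right _ (mem_image.2 ⟨(β, l), ?_, rfl⟩)
      exact mem_product.2 ⟨Fintype.mem_piFinset.2 hβ, hl'⟩
    · refine mem_union_left _ (mem_image.2 ⟨(β, l), ?_, rfl⟩)
      exact mem_product.2 ⟨Fintype.mem_piFinset.2 hβ, hl'⟩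
  have hp : (2 ^ J) ^ k = 2 ^ (k * J) := by rw [← pow_mul, mul_comm]
  have hE : (2 : ℝ) ^ ((0 + c / (4 * k)) * ((k * J : ℕ) : ℝ)) = (2 : ℝ) ^ (c / 4 * J) := by
    congr 1
    push_cast
    field_simp
    ring
  have hb : ∀ w : ℕ → ℝ, w ∈ WW k 𝓑 (k * J) → (∀ n, |w n| ≤ ‖coF (2 ^ J) l β n‖) →
      |∑ n ∈ Icc 1 ((2 ^ J) ^ k), w n * cm ω n| ≤ |C1| * √|C₀| * (2 : ℝ) ^ (-(c / 4 * J)) := by
    intro w hw hw2
    rw [hp]
    refine (hC1 (k * J) w hw).trans ?_
    rw [hE]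
    have g1 : √(nn (2 ^ (k * J)) w) ≤ √|C₀| * (2 : ℝ) ^ (-(c / 2 * J)) := by
      have g2 : nn (2 ^ (k * J)) w ≤ |C₀| * (2 : ℝ) ^ (-(c * J)) :=
        ((nn_co (2 ^ J) _ l β w hw2).trans u2).trans
          (mul_le_mul_of_nonneg_right (le_abs_self C₀) (by positivity))
      refine (Real.sqrt_le_sqrt g2).trans (le_of_eq ?_)
      rw [Real.sqrt_mul (abs_nonneg _)]
      congr 1
      rw [Real.sqrt_eq_rpow, ← Real.rpow_mul (by norm_num)]
      congr 1
      ring
    calc C1 * (2 : ℝ) ^ (c / 4 * J) * √(nn (2 ^ (k * J)) w)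
        ≤ |C1| * (2 : ℝ) ^ (c / 4 * J) * (√|C₀| * (2 : ℝ) ^ (-(c / 2 * J))) := by
          refine mul_le_mul ?_ g1 (Real.sqrt_nonneg _) (by positivity)
          exact mul_le_mul_of_nonneg_right (le_abs_self C1) (by positivity)
      _ = |C1| * √|C₀| * ((2 : ℝ) ^ (c / 4 * J) * (2 : ℝ) ^ (-(c / 2 * J))) := by ring
      _ = _ := by
          rw [← Real.rpow_add (by norm_num)]
          congr 2
          ring
  have r1 := hb _ (hmem true) (fun n => by simpa using Complex.abs_re_le_norm _)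
  have r2 := hb _ (hmem false) (fun n => by simpa using Complex.abs_im_le_norm _)
  simp only [if_true] at r1
  simp only [Bool.false_eq_true, if_false] at r2
  have r3 : U1 k (2 ^ J) l β ≤ |C₀| * (2 : ℝ) ^ (-(c / 4 * J)) := by
    refine u1.trans ?_
    have h1 : (2 : ℝ) ^ (-(c * J)) ≤ (2 : ℝ) ^ (-(c / 4 * J)) := by
      refine Real.rpow_le_rpow_of_exponent_le (by norm_num) ?_
      have : (0 : ℝ) ≤ J := by positivity
      nlinarith
    calc C₀ * (2 : ℝ) ^ (-(c * J)) ≤ |C₀| * (2 : ℝ) ^ (-(c * J)) :=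
          mul_le_mul_of_nonneg_right (le_abs_self C₀) (by positivity)
      _ ≤ _ := mul_le_mul_of_nonneg_left h1 (abs_nonneg _)
  refine (TS_bound ω (2 ^ J) l β).trans ?_
  have : (|C₀| + 2 * (|C1| * √|C₀|)) * (2 : ℝ) ^ (-(c / 4 * J)) = |C₀| * (2 : ℝ) ^ (-(c / 4 * J)) +
      (|C1| * √|C₀| * (2 : ℝ) ^ (-(c / 4 * J)) + |C1| * √|C₀| * (2 : ℝ) ^ (-(c / 4 * J))) := by ring
  rw [this]
  exact add_le_add r3 (add_le_add r1 r2)

end Pool.Agent.Q13.L2M
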